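import Pool.Agent.N430.PS.Sum

set_option autoImplicit false

/-! The weak-type bound. -/

namespace Pool.Agent.N430.PS

open Finset

/-- the number of primes `p ≤ x` modulo which `n` is a primitive root -/
noncomputable def cntP (n : ℤ) (x : ℕ) : ℕ := by
  classical
  exact ((Finset.range (x + 1)).filter (fun p : ℕ => p.Prime ∧ orderOf (n : ZMod p) = p - 1)).card

/-- the expected number -/
noncomputable def EE (B : ℤ) (e x : ℕ) : ℝ := ∑ p ∈ PB (x + 1), G B e p

lemma cntP_eq (B : ℤ) (e m x : ℕ) :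
    (cntP (B * (m : ℤ) ^ e) x : ℝ) = ∑ p ∈ PB (x + 1), fR B e p m := by
  classical
  unfold cntP fR PB
  rw [← Finset.filter_filter, Finset.card_filter, Nat.cast_sum]
  refine Finset.sum_congr rfl fun p _ => ?_
  split_ifs <;> simp

lemma diff_le (B : ℤ) (e m x : ℕ) (hm : m ≠ 0) :
    |(cntP (B * (m : ℤ) ^ e) x : ℝ) - EE B e x| ≤
      |∑ p ∈ PB (x + 1), aR B e p m| + (m.primeFactors.card : ℝ) := by
  classical
  have h1 : (cntP (B * (m : ℤ) ^ e) x : ℝ) - EE B e x =
      ∑ p ∈ PB (x + 1), aR B e p m - ∑ p ∈ PB (x + 1), (if p ∣ m then G B e p else 0) := by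
    rw [cntP_eq, EE, ← Finset.sum_sub_distrib, ← Finset.sum_sub_distrib]
    refine Finset.sum_congr rfl fun p _ => ?_
    unfold aR
    split_ifs <;> ring
  have h2 : |∑ p ∈ PB (x + 1), (if p ∣ m then G B e p else 0)| ≤ (m.primeFactors.card : ℝ) := by
    rw [abs_of_nonneg]
    · rw [← Finset.sum_filter]
      calc ∑ p ∈ (PB (x + 1)).filter (fun p => p ∣ m), G B e p
          ≤ ∑ p ∈ (PB (x + 1)).filter (fun p => p ∣ m), (1 : ℝ) := by
            apply Finset.sum_le_sum
            intro p hp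
            exact G_le_one B e p (mem_filter.1 (mem_filter.1 hp).1).2
        _ = (#((PB (x + 1)).filter (fun p => p ∣ m)) : ℝ) := by simp
        _ ≤ (m.primeFactors.card : ℝ) := by
            apply Nat.cast_le.2
            apply card_le_card
            intro p hp
            rw [mem_filter] at hp
            rw [Nat.mem_primeFactors]
            exact ⟨(mem_filter.1 hp.1).2, hp.2, hm⟩
    · apply Finset.sum_nonneg
      intro p hp
      split_ifs
      · exact G_nonneg B e p (mem_filter.1 hp).2.one_le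
      · exact le_rfl
  rw [h1]
  refine (abs_sub _ _).trans ?_
  linarith

lemma card_pf (m N : ℕ) (hm : 1 ≤ m) (hN : m ≤ N) : (m.primeFactors.card : ℝ) ≤ 2 * Real.log N := by
  have h1 : (2 : ℝ) ^ m.primeFactors.card ≤ N := by
    have h2 : 2 ^ m.primeFactors.card ≤ ∏ p ∈ m.primeFactors, p := by
      rw [← Finset.prod_const]
      exact Finset.prod_le_prod' fun p hp => (Nat.prime_of_mem_primeFactors hp).two_le
    have h3 := Nat.le_of_dvd (by omega) (Nat.prod_primeFactors_dvd m)
    exact_mod_cast (h2.trans h3).trans hN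
  have h2 := Real.log_le_log (by positivity) h1
  rw [Real.log_pow] at h2
  have h3 : (1 / 2 : ℝ) < Real.log 2 := by
    have := Real.log_two_gt_d9
    linarith
  have h4 : (0 : ℝ) ≤ m.primeFactors.card := Nat.cast_nonneg _
  nlinarith

open Classical in
/-- the exceptional set -/
noncomputable def bad (B : ℤ) (e s N : ℕ) (lam : ℝ) : Finset ℕ :=
  (Icc 1 N).filter (fun m : ℕ => ∃ x : ℕ, 1 ≤ x ∧ x ^ 2 ≤ N ^ (s + 1) ∧
    lam * (x : ℝ) ^ (1 - 1 / (2 * ((s : ℝ) + 1))) * (√(Real.log N)) ^ (s + 6) <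
      |(cntP (B * (m : ℤ) ^ e) x : ℝ) - EE B e x|)

theorem weak (s : ℕ) : ∃ C : ℝ, 0 < C ∧ ∀ (B : ℤ) (e : ℕ), e ≠ 0 → ∀ N : ℕ, 2 ≤ N → ∀ lam : ℝ,
    0 < lam → (#(bad B e s N lam) : ℝ) ≤ C * N / lam := by
  classical
  set K : ℝ := (s : ℝ) + 7 with hK
  have hKpos : 0 < K := by positivity
  refine ⟨4 * 2 ^ (s + 4) + 832 * 2 ^ s * K ^ 3, by positivity, ?_⟩
  intro B e he N hN lam hlam
  have hNr : (2 : ℝ) ≤ N := by exact_mod_cast hN
  have hlog2 : (1 / 2 : ℝ) < Real.log 2 := by
    have := Real.log_two_gt_d9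
    linarith
  have hlog2' : Real.log 2 < 1 := by
    have := Real.log_two_lt_d9
    linarith
  have hlogN : 1 / 2 < Real.log N := hlog2.trans_le (Real.log_le_log (by norm_num) hNr)
  set w := √(Real.log N) with hw
  have hw2 : w ^ 2 = Real.log N := Real.sq_sqrt (by linarith)
  have hw0 : 0 ≤ w := Real.sqrt_nonneg _
  have hwhalf : 1 / 2 ≤ w := by nlinarith
  have hwpos : 0 < w := by linarith
  by_cases hcase : lam < 4 * 2 ^ (s + 4)
  · -- the trivial case
    rw [le_div_iff₀ hlam]
    have h1 : (#(bad B e s N lam) : ℝ) ≤ N := by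
      have : #(bad B e s N lam) ≤ #(Icc 1 N) := card_filter_le _ _
      rw [Nat.card_Icc] at this
      exact_mod_cast this
    calc (#(bad B e s N lam) : ℝ) * lam ≤ N * (4 * 2 ^ (s + 4)) :=
          mul_le_mul h1 hcase.le hlam.le (by positivity)
      _ ≤ _ := by
          have : 0 ≤ 832 * 2 ^ s * K ^ 3 * (N : ℝ) := by positivity
          linarith
  · push Not at hcase
    -- choose the points
    have hx : ∀ m ∈ bad B e s N lam, ∃ x : ℕ, 1 ≤ x ∧ x ^ 2 ≤ N ^ (s + 1) ∧
        lam * (x : ℝ) ^ (1 - 1 / (2 * ((s : ℝ) + 1))) * w ^ (s + 6) <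
        |(cntP (B * (m : ℤ) ^ e) x : ℝ) - EE B e x| := by
      intro m hm
      exact (mem_filter.1 hm).2
    choose! x hx1 hx2 hx3 using hx
    set J : ℕ → ℕ := fun m => Nat.log 2 (x m + 1) + 1 with hJ
    have hJ1 : ∀ m, x m + 1 < 2 ^ J m := fun m => Nat.lt_pow_succ_log_self (by norm_num) _
    have hJ2 : ∀ m ∈ bad B e s N lam, 2 ^ J m ≤ 4 * x m := by
      intro m hm
      have h1 := hx1 m hm
      have h2 : 2 ^ Nat.log 2 (x m + 1) ≤ x m + 1 := Nat.pow_log_le_self 2 (by omega)
      have h3 : 2 ^ J m = 2 * 2 ^ Nat.log 2 (x m + 1) := by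
        simp only [hJ]
        rw [pow_succ]; ring
      omega
    have hJX : ∀ m ∈ bad B e s N lam, ((2 : ℝ) ^ J m) ^ 2 ≤ 16 * (N : ℝ) ^ (s + 1) := by
      intro m hm
      have h1 := hJ2 m hm
      have h2 := hx2 m hm
      have h3 : (2 ^ J m) ^ 2 ≤ 16 * N ^ (s + 1) := by
        calc (2 ^ J m) ^ 2 ≤ (4 * x m) ^ 2 := Nat.pow_le_pow_left h1 2
          _ = 16 * (x m) ^ 2 := by ring
          _ ≤ _ := Nat.mul_le_mul_left _ h2
      exact_mod_cast h3
    -- a bound for J
    have hJK : ∀ j : ℕ, ((2 : ℝ) ^ j) ^ 2 ≤ 16 * (N : ℝ) ^ (s + 1) → (j : ℝ) + 1 ≤ K * w ^ 2 ∧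
        1 + Real.log ((2 : ℝ) ^ j) ≤ K * w ^ 2 := by
      intro j hj
      have h1 := Real.log_le_log (by positivity) hj
      rw [Real.log_mul (by norm_num) (by positivity), Real.log_pow, Real.log_pow, Real.log_pow,
        ← hw2, show (16 : ℝ) = 2 ^ 4 by norm_num, Real.log_pow] at h1
      push_cast at h1
      have h2 : (j : ℝ) ≤ 2 + ((s : ℝ) + 1) * w ^ 2 := by
        have h3 : 2 * ((j : ℝ) * Real.log 2) ≤ 4 * Real.log 2 + ((s : ℝ) + 1) * w ^ 2 := h1
        have h4 : ((s : ℝ) + 1) * w ^ 2 ≤ 2 * Real.log 2 * (((s : ℝ) + 1) * w ^ 2) := by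
          have : 0 ≤ ((s : ℝ) + 1) * w ^ 2 := by positivity
          nlinarith
        have h5 : 2 * Real.log 2 * (j : ℝ) ≤ 2 * Real.log 2 * (2 + ((s : ℝ) + 1) * w ^ 2) := by
          linarith
        exact le_of_mul_le_mul_left h5 (by linarith)
      have hw3 : 1 / 2 ≤ w ^ 2 := by rw [hw2]; exact hlogN.le
      constructor
      · rw [hK]; nlinarith
      · rw [Real.log_pow]
        have h6 : (j : ℝ) * Real.log 2 ≤ j := by
          have : (0 : ℝ) ≤ j := Nat.cast_nonneg _
          nlinarith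
        rw [hK]; nlinarith
    -- one dyadic class
    have hclass : ∀ j : ℕ, (#((bad B e s N lam).filter (fun m => J m = j)) : ℝ) ≤
        832 * 2 ^ s * K ^ 2 * N / (lam * w ^ 2) := by
      intro j
      set Ej := (bad B e s N lam).filter (fun m => J m = j) with hEj
      rcases Ej.eq_empty_or_nonempty with hemp | hne
      · rw [hemp]
        simp only [card_empty, Nat.cast_zero]
        positivity
      obtain ⟨m₀, hm₀⟩ := hne
      have hm₀' := mem_filter.1 hm₀
      have hXj : ((2 : ℝ) ^ j) ^ 2 ≤ 16 * (N : ℝ) ^ (s + 1) := by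
        rw [← hm₀'.2]
        exact hJX m₀ hm₀'.1
      obtain ⟨hj1, hj2⟩ := hJK j hXj
      set a : ℝ := 1 / (2 * ((s : ℝ) + 1)) with ha
      have ha0 : 0 < a := by positivity
      have ha1 : a ≤ 1 / 2 := by
        rw [ha]
        apply one_div_le_one_div_of_le (by norm_num)
        have : (0 : ℝ) ≤ s := Nat.cast_nonneg _
        linarith
      set y : ℝ := ((2 : ℝ) ^ j) ^ a with hy
      have hypos : 0 < y := by positivity
      have hyX : y ^ (2 * (s + 1)) = 2 ^ j := by
        rw [hy, ← Real.rpow_natCast, ← Real.rpow_mul (by positivity), ha]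
        have : 1 / (2 * ((s : ℝ) + 1)) * ((2 * (s + 1) : ℕ) : ℝ) = 1 := by
          push_cast
          field_simp
        rw [this, Real.rpow_one]
      have hyX2 : ((2 : ℝ) ^ j) ^ (1 - a) = y ^ (2 * s + 1) := by
        rw [hy, ← Real.rpow_natCast (((2 : ℝ) ^ j) ^ a), ← Real.rpow_mul (by positivity)]
        congr 1
        rw [ha]
        push_cast
        field_simp
        ring
      have hmax := maximal_opt B e he s N j (by omega) Ej
        ((filter_subset _ _).trans (filter_subset _ _)) (fun m => x m + 1) (by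
          intro m hm
          have := hJ1 m
          rw [(mem_filter.1 hm).2] at this
          exact this) hXj y hypos hyX
      -- the lower bound
      have hlow : ∀ m ∈ Ej, lam * w ^ (s + 6) * y ^ (2 * s + 1) / 8 ≤
          |∑ p ∈ PB (x m + 1), aR B e p m| := by
        intro m hm
        have hm' := mem_filter.1 hm
        have hmI := mem_Icc.1 (mem_filter.1 hm'.1).1
        have h1 := hx3 m hm'.1
        have h2 := diff_le B e m (x m) (by omega)
        have h3 := card_pf m N hmI.1 hmI.2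
        rw [← hw2] at h3
        have hx1r : (1 : ℝ) ≤ x m := by exact_mod_cast hx1 m hm'.1
        have h4 : (1 : ℝ) ≤ (x m : ℝ) ^ (1 - a) :=
          Real.one_le_rpow hx1r (by linarith)
        have h5 : y ^ (2 * s + 1) / 4 ≤ (x m : ℝ) ^ (1 - a) := by
          rw [← hyX2]
          have h6 : (2 : ℝ) ^ j / 4 ≤ x m := by
            have := hJ2 m hm'.1
            rw [hm'.2] at this
            have h7 : (2 : ℝ) ^ j ≤ 4 * x m := by exact_mod_cast this
            linarith
          calc ((2 : ℝ) ^ j) ^ (1 - a) / 4 ≤ ((2 : ℝ) ^ j) ^ (1 - a) / 4 ^ (1 - a) := by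
                apply div_le_div_of_nonneg_left (by positivity) (by positivity)
                calc (4 : ℝ) ^ (1 - a) ≤ 4 ^ (1 : ℝ) :=
                      Real.rpow_le_rpow_of_exponent_le (by norm_num) (by linarith)
                  _ = 4 := Real.rpow_one 4
            _ = ((2 : ℝ) ^ j / 4) ^ (1 - a) := (Real.div_rpow (by positivity) (by norm_num) _).symm
            _ ≤ (x m : ℝ) ^ (1 - a) := Real.rpow_le_rpow (by positivity) h6 (by linarith)
        -- the small term
        have h8 : 2 * w ^ 2 ≤ lam * (x m : ℝ) ^ (1 - a) * w ^ (s + 6) / 2 := by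
          have h9 : (1 / 2 : ℝ) ^ (s + 4) ≤ w ^ (s + 4) := pow_le_pow_left₀ (by norm_num) hwhalf _
          have h10 : 4 ≤ lam * w ^ (s + 4) := by
            calc (4 : ℝ) = 4 * 2 ^ (s + 4) * (1 / 2) ^ (s + 4) := by
                  rw [mul_assoc, ← mul_pow]
                  norm_num
              _ ≤ lam * w ^ (s + 4) := mul_le_mul hcase h9 (by positivity) hlam.le
          have h11 : w ^ (s + 6) = w ^ (s + 4) * w ^ 2 := by ring
          rw [h11]
          have h12 : 4 * w ^ 2 ≤ (lam * w ^ (s + 4)) * w ^ 2 :=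
            mul_le_mul_of_nonneg_right h10 (by positivity)
          have h13 : (lam * w ^ (s + 4)) * w ^ 2 ≤ (x m : ℝ) ^ (1 - a) * ((lam * w ^ (s + 4)) * w ^ 2) :=
            le_mul_of_one_le_left (by positivity) h4
          linarith
        have h14 : lam * w ^ (s + 6) * y ^ (2 * s + 1) / 8 ≤
            lam * (x m : ℝ) ^ (1 - a) * w ^ (s + 6) / 2 := by
          have := mul_le_mul_of_nonneg_left h5 (show 0 ≤ lam * w ^ (s + 6) by positivity)
          linarith
        linarith
      have hsum : (#Ej : ℝ) * (lam * w ^ (s + 6) * y ^ (2 * s + 1) / 8) ≤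
          j * (104 * (N * y ^ (2 * s + 1) * (√(1 + Real.log N)) ^ s *
            (1 + Real.log ((2 : ℝ) ^ j)))) := by
        refine le_trans ?_ hmax
        rw [← nsmul_eq_mul, ← Finset.sum_const]
        exact Finset.sum_le_sum hlow
      have hl : (√(1 + Real.log N)) ^ s ≤ 2 ^ s * w ^ s := by
        rw [← mul_pow]
        apply pow_le_pow_left₀ (Real.sqrt_nonneg _)
        rw [Real.sqrt_le_left (by positivity)]
        nlinarith
      have hj0 : (j : ℝ) ≤ K * w ^ 2 := by linarith
      have hup : j * (104 * (N * y ^ (2 * s + 1) * (√(1 + Real.log N)) ^ s *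
            (1 + Real.log ((2 : ℝ) ^ j)))) ≤
          (K * w ^ 2) * (104 * (N * y ^ (2 * s + 1) * (2 ^ s * w ^ s) * (K * w ^ 2))) := by
        have hlX : 0 ≤ Real.log ((2 : ℝ) ^ j) := Real.log_nonneg (one_le_pow₀ (by norm_num))
        apply mul_le_mul hj0 _ (by positivity) (by positivity)
        apply mul_le_mul_of_nonneg_left _ (by norm_num)
        apply mul_le_mul _ hj2 (by linarith) (by positivity)
        exact mul_le_mul_of_nonneg_left hl (by positivity)
      rw [le_div_iff₀ (by positivity)]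
      have h20 := hsum.trans hup
      have h21 : (#Ej : ℝ) * (lam * w ^ 2) * (w ^ (s + 4) * y ^ (2 * s + 1) / 8) ≤
          832 * 2 ^ s * K ^ 2 * N * (w ^ (s + 4) * y ^ (2 * s + 1) / 8) := by
        calc (#Ej : ℝ) * (lam * w ^ 2) * (w ^ (s + 4) * y ^ (2 * s + 1) / 8) =
            (#Ej : ℝ) * (lam * w ^ (s + 6) * y ^ (2 * s + 1) / 8) := by ring
          _ ≤ _ := h20
          _ = _ := by ring
      exact le_of_mul_le_mul_right h21 (by positivity)
    -- the number of classes
    rcases (bad B e s N lam).eq_empty_or_nonempty with hemp | hne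
    · rw [hemp]
      simp only [card_empty, Nat.cast_zero]
      positivity
    obtain ⟨m₁, hm₁, hmax⟩ := exists_max_image (bad B e s N lam) J hne
    have hj1 := (hJK (J m₁) (hJX m₁ hm₁)).1
    have hcard : (#(bad B e s N lam) : ℝ) = ∑ j ∈ range (J m₁ + 1),
        (#((bad B e s N lam).filter (fun m => J m = j)) : ℝ) := by
      rw [← Nat.cast_sum]
      congr 1
      apply card_eq_sum_card_fiberwise
      intro m hm
      rw [mem_coe, mem_range]
      have := hmax m (mem_coe.1 hm)
      omega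
    rw [hcard]
    calc ∑ j ∈ range (J m₁ + 1), (#((bad B e s N lam).filter (fun m => J m = j)) : ℝ)
        ≤ ∑ _j ∈ range (J m₁ + 1), 832 * 2 ^ s * K ^ 2 * N / (lam * w ^ 2) :=
          Finset.sum_le_sum fun j _ => hclass j
      _ = ((J m₁ : ℝ) + 1) * (832 * 2 ^ s * K ^ 2 * N / (lam * w ^ 2)) := by
          rw [Finset.sum_const, card_range, nsmul_eq_mul]
          push_cast
          ring
      _ ≤ (K * w ^ 2) * (832 * 2 ^ s * K ^ 2 * N / (lam * w ^ 2)) :=
          mul_le_mul_of_nonneg_right hj1 (by positivity)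
      _ = 832 * 2 ^ s * K ^ 3 * N / lam := by
          field_simp
      _ ≤ (4 * 2 ^ (s + 4) + 832 * 2 ^ s * K ^ 3) * N / lam := by
          apply div_le_div_of_nonneg_right _ hlam.le
          apply mul_le_mul_of_nonneg_right _ (by positivity)
          have : (0 : ℝ) ≤ 4 * 2 ^ (s + 4) := by positivity
          linarith

end Pool.Agent.N430.PS
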