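import Pool.Agent.N430.PS.Weak
import Pool.Agent.N430.AD.Final

set_option autoImplicit false

/-! The main term for the family of Q1. -/

namespace Pool.Agent.N430.PS

open Finset Filter Topology
open Pool.Agent.H730R2.AA (NT rho mainT PR dens)
open Pool.Agent.H730R2.AA.Exp

lemma G_two (p : ℕ) [Fact p.Prime] (hp : p ≠ 2) (D : ℤ) (hD : ¬ ((p : ℤ) ∣ D)) :
    G D 2 p = rho p * (1 - (jacobiSym D p : ℝ)) := by
  classical
  have hu : IsUnit (D : ZMod p) := by
    rw [isUnit_iff_ne_zero, Ne, ZMod.intCast_zmod_eq_zero_iff_dvd]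
    exact hD
  obtain ⟨b, hb⟩ := hu
  have h1 := G_eq D 2 b hb
  rw [fc_fB b 2 two_ne_zero, sqrt_one hp, sum_pair (qc_ne hp).symm, fc_gen_one,
    fc_gen_quad _ (qc_sq hp) (qc_ne hp), hb, qc_apply] at h1
  have hu : IsUnit (D : ZMod p) := by rw [← hb]; exact b.isUnit
  rw [MulChar.one_apply hu] at h1
  have h2 : ((G D 2 p : ℝ) : ℂ) = ((rho p * (1 - (jacobiSym D p : ℝ)) : ℝ) : ℂ) := by
    rw [← h1]
    push_cast
    ring
  exact_mod_cast h2

lemma EE_main (D : ℤ) (x : ℕ) : |EE D 2 x - mainT D x| ≤ 1 := by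
  classical
  have h1 : mainT D x = ∑ p ∈ PB (x + 1), if (p ≠ 2 ∧ ¬ (p : ℤ) ∣ D) then
      rho p * (1 - (jacobiSym D p : ℝ)) else 0 := by
    unfold mainT PR PB
    rw [← Finset.sum_filter, Finset.filter_filter]
  have h2 : EE D 2 x - mainT D x = ∑ p ∈ PB (x + 1), if p = 2 then G D 2 2 else 0 := by
    rw [h1, EE, ← Finset.sum_sub_distrib]
    refine Finset.sum_congr rfl fun p hp => ?_
    have hpp : p.Prime := (mem_filter.1 hp).2
    have : Fact p.Prime := ⟨hpp⟩
    by_cases h : p = 2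
    · subst h
      simp
    · by_cases hd : (p : ℤ) ∣ D
      · rw [G_zero_of_dvd D 2 hd]
        simp [h, hd]
      · rw [G_two p h D hd]
        simp [h, hd]
  rw [h2, Finset.sum_ite_eq']
  split_ifs
  · rw [abs_of_nonneg (G_nonneg D 2 2 (by norm_num))]
    exact G_le_one D 2 2 Nat.prime_two
  · simp

theorem EE_lim (D : ℤ) (hD : Squarefree D) (hD4 : D % 4 = 1) (hD1 : D ≠ 1) :
    Tendsto (fun x : ℕ => EE D 2 x / (Nat.primeCounting x : ℝ)) atTop (𝓝 (dens D)) := by
  have h := Pool.Agent.H730R2.AA.main_lim D hD hD4 hD1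
  have h2 : Tendsto (fun x : ℕ => (EE D 2 x - mainT D x) / (Nat.primeCounting x : ℝ)) atTop (𝓝 0) := by
    have h3 : Tendsto (fun x : ℕ => 1 / (Nat.primeCounting x : ℝ)) atTop (𝓝 0) :=
      tendsto_const_nhds.div_atTop Pool.Agent.N430.AD.pc_top
    refine squeeze_zero_norm (fun x => ?_) h3
    rw [Real.norm_eq_abs, abs_div, abs_of_nonneg (show (0 : ℝ) ≤ Nat.primeCounting x from Nat.cast_nonneg _)]
    exact div_le_div_of_nonneg_right (EE_main D x) (Nat.cast_nonneg _)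
  have h4 := h.add h2
  rw [add_zero] at h4
  refine h4.congr fun x => ?_
  ring

end Pool.Agent.N430.PS
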