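import Pool.Agent.H730R2.AA.Expand

set_option autoImplicit false

/-! Expansion of the indicator function of `B m^r` being a primitive root modulo `p`. -/

namespace Pool.Agent.N430.PS

open Finset
open Pool.Agent.H730R2.AA (NT rho)
open Pool.Agent.H730R2.AA.Exp

/-- the proportion of the `a` in `[1, p-1]` for which `B a^r` is a primitive root modulo `p` -/
noncomputable def G (B : ℤ) (r p : ℕ) : ℝ := by
  classical
  exact (((Finset.Icc 1 (p - 1)).filter
    (fun a : ℕ => orderOf ((B * (a : ℤ) ^ r : ℤ) : ZMod p) = p - 1)).card : ℝ) / ((p : ℝ) - 1)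

section
variable {p : ℕ} [Fact p.Prime]

lemma pm1_pos : (0 : ℝ) < (p : ℝ) - 1 := by
  have : 1 < p := (Fact.out (p := p.Prime)).one_lt
  have : (1 : ℝ) < p := by exact_mod_cast this
  linarith

/-- orthogonality -/
lemma orth (χ ψ : DirichletCharacter ℂ p) :
    ((p - 1 : ℕ) : ℂ)⁻¹ * ∑ u : (ZMod p)ˣ, χ (u : ZMod p) * ψ ((u⁻¹ : (ZMod p)ˣ) : ZMod p) =
      if χ = ψ then 1 else 0 := by
  classical
  have h1 : ∀ u : (ZMod p)ˣ, χ (u : ZMod p) * ψ ((u⁻¹ : (ZMod p)ˣ) : ZMod p) =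
      (χ * ψ⁻¹) (u : ZMod p) := by
    intro u
    rw [MulChar.mul_apply, MulChar.inv_apply_eq_inv']
    congr 1
    have h2 : ψ ((u⁻¹ : (ZMod p)ˣ) : ZMod p) * ψ (u : ZMod p) = 1 := by
      rw [← map_mul, ← Units.val_mul, inv_mul_cancel, Units.val_one, map_one]
    exact eq_inv_of_mul_eq_one_left h2
  rw [Finset.sum_congr rfl fun u _ => h1 u]
  have h3 : ∑ u : (ZMod p)ˣ, (χ * ψ⁻¹) (u : ZMod p) = ∑ a : ZMod p, (χ * ψ⁻¹) a := by
    symm
    have h4 : ∑ a : ZMod p, (χ * ψ⁻¹) a = ∑ a ∈ univ.filter (fun a : ZMod p => IsUnit a),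
        (χ * ψ⁻¹) a := by
      rw [Finset.sum_filter]
      refine Finset.sum_congr rfl fun a _ => ?_
      split_ifs with h
      · rfl
      · exact MulChar.map_nonunit _ h
    rw [h4]
    symm
    refine Finset.sum_bij (fun (u : (ZMod p)ˣ) _ => (u : ZMod p)) ?_ ?_ ?_ ?_
    · intro u _
      exact mem_filter.2 ⟨mem_univ _, u.isUnit⟩
    · intro u _ w _ h
      exact Units.ext h
    · intro a ha
      obtain ⟨u, hu⟩ := (mem_filter.1 ha).2
      exact ⟨u, mem_univ _, hu⟩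
    · intro u _
      rfl
  rw [h3]
  by_cases h : χ = ψ
  · rw [if_pos h, h, mul_inv_cancel, MulChar.sum_one_eq_card_units, card_G]
    exact inv_mul_cancel₀ N_ne
  · rw [if_neg h, MulChar.sum_eq_zero_of_ne_one (fun h' => h (mul_inv_eq_one.1 h')), mul_zero]

/-- the function on the units -/
noncomputable def fB (b : (ZMod p)ˣ) (r : ℕ) (u : (ZMod p)ˣ) : ℂ := gen (b * u ^ r)

lemma fc_fB (b : (ZMod p)ˣ) (r : ℕ) (hr : r ≠ 0) (ψ : DirichletCharacter ℂ p) [DecidableEq (DirichletCharacter ℂ p)] :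
    fc (fB b r) ψ = ∑ χ ∈ univ.filter (fun χ : DirichletCharacter ℂ p => χ ^ r = ψ),
      fc gen χ * χ (b : ZMod p) := by
  have h1 : ∀ u : (ZMod p)ˣ, fB b r u = ∑ χ : DirichletCharacter ℂ p,
      fc gen χ * χ (b : ZMod p) * (χ ^ r) (u : ZMod p) := by
    intro u
    unfold fB
    rw [← fc_inv (p := p) gen (b * u ^ r)]
    refine Finset.sum_congr rfl fun χ _ => ?_
    rw [Units.val_mul, map_mul, Units.val_pow_eq_pow_val, map_pow, MulChar.pow_apply' χ hr]
    ring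
  unfold fc
  have h2 : ∀ u : (ZMod p)ˣ, fB b r u * ψ ((u⁻¹ : (ZMod p)ˣ) : ZMod p) =
      ∑ χ : DirichletCharacter ℂ p, fc gen χ * χ (b : ZMod p) * ((χ ^ r) (u : ZMod p) *
        ψ ((u⁻¹ : (ZMod p)ˣ) : ZMod p)) := by
    intro u
    rw [h1, Finset.sum_mul]
    exact Finset.sum_congr rfl fun χ _ => by ring
  rw [Finset.sum_congr rfl fun u _ => h2 u, Finset.sum_comm, Finset.mul_sum, Finset.sum_filter]
  refine Finset.sum_congr rfl fun χ _ => ?_
  rw [← Finset.mul_sum]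
  have h3 := orth (χ ^ r) ψ
  have h4 : ((p - 1 : ℕ) : ℂ)⁻¹ * (fc gen χ * χ (b : ZMod p) * ∑ u : (ZMod p)ˣ,
      (χ ^ r) (u : ZMod p) * ψ ((u⁻¹ : (ZMod p)ˣ) : ZMod p)) = fc gen χ * χ (b : ZMod p) *
      (((p - 1 : ℕ) : ℂ)⁻¹ * ∑ u : (ZMod p)ˣ,
      (χ ^ r) (u : ZMod p) * ψ ((u⁻¹ : (ZMod p)ˣ) : ZMod p)) := by ring
  rw [h4, h3]
  unfold fc
  split_ifs <;> ring

lemma norm_fc_le (f : (ZMod p)ˣ → ℂ) (hf : ∀ u, ‖f u‖ ≤ 1) (χ : DirichletCharacter ℂ p) :
    ‖fc f χ‖ ≤ 1 := by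
  unfold fc
  have hN : (0 : ℝ) < ((p - 1 : ℕ) : ℝ) := by exact_mod_cast N_pos (p := p)
  rw [norm_mul, norm_inv, Complex.norm_natCast]
  have h1 : ‖∑ u : (ZMod p)ˣ, f u * χ ((u⁻¹ : (ZMod p)ˣ) : ZMod p)‖ ≤ ((p - 1 : ℕ) : ℝ) := by
    calc _ ≤ ∑ u : (ZMod p)ˣ, ‖f u * χ ((u⁻¹ : (ZMod p)ˣ) : ZMod p)‖ := norm_sum_le _ _
      _ ≤ ∑ _u : (ZMod p)ˣ, (1 : ℝ) := by
        refine sum_le_sum fun u _ => ?_
        rw [norm_mul]
        have h3 := DirichletCharacter.norm_le_one χ ((u⁻¹ : (ZMod p)ˣ) : ZMod p)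
        calc _ ≤ 1 * 1 := mul_le_mul (hf u) h3 (norm_nonneg _) zero_le_one
          _ = 1 := one_mul 1
      _ = _ := by rw [sum_const, card_univ, card_G]; simp
  calc _ ≤ (((p - 1 : ℕ) : ℝ))⁻¹ * ((p - 1 : ℕ) : ℝ) := by gcongr
    _ = 1 := inv_mul_cancel₀ hN.ne'

lemma fc_fB_sum (b : (ZMod p)ˣ) (r : ℕ) (hr : r ≠ 0) :
    ∑ ψ : DirichletCharacter ℂ p, ‖fc (fB b r) ψ‖ ≤ ((p - 1).divisors.card : ℝ) := by
  classical
  calc ∑ ψ, ‖fc (fB b r) ψ‖ ≤ ∑ ψ : DirichletCharacter ℂ p,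
        ∑ χ ∈ univ.filter (fun χ : DirichletCharacter ℂ p => χ ^ r = ψ), ‖fc gen χ‖ := by
        refine sum_le_sum fun ψ _ => ?_
        rw [fc_fB b r hr ψ]
        refine (norm_sum_le _ _).trans (sum_le_sum fun χ _ => ?_)
        rw [norm_mul]
        have := DirichletCharacter.norm_le_one χ (b : ZMod p)
        calc _ ≤ ‖fc gen χ‖ * 1 := by gcongr
          _ = _ := mul_one _
    _ = ∑ χ : DirichletCharacter ℂ p, ‖fc gen χ‖ :=
        sum_fiberwise_of_maps_to (fun _ _ => mem_univ _) _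
    _ ≤ _ := fc_gen_sum

lemma G_zero_of_dvd (B : ℤ) (r : ℕ) (hB : (p : ℤ) ∣ B) : G B r p = 0 := by
  classical
  unfold G
  have hN := N_pos (p := p)
  rw [filter_eq_empty_iff.2, card_empty]
  · simp
  · intro a _ h
    have h0 : ((B * (a : ℤ) ^ r : ℤ) : ZMod p) = 0 := by
      rw [ZMod.intCast_zmod_eq_zero_iff_dvd]
      exact hB.mul_right _
    rw [h0, orderOf_zero] at h
    omega

lemma G_eq (B : ℤ) (r : ℕ) (b : (ZMod p)ˣ) (hb : (b : ZMod p) = (B : ZMod p)) :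
    fc (fB b r) 1 = ((G B r p : ℝ) : ℂ) := by
  classical
  have hp := Fact.out (p := p.Prime)
  unfold fc G
  have h1 : ∑ u : (ZMod p)ˣ, fB b r u * (1 : DirichletCharacter ℂ p) ((u⁻¹ : (ZMod p)ˣ) : ZMod p)
      = (((Finset.Icc 1 (p - 1)).filter
          (fun a : ℕ => orderOf ((B * (a : ℤ) ^ r : ℤ) : ZMod p) = p - 1)).card : ℂ) := by
    rw [card_filter, Nat.cast_sum]
    symm
    refine Finset.sum_bij' (fun a ha => Units.mk0 (a : ZMod p) (by
        rw [mem_Icc] at ha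
        intro h
        rw [ZMod.natCast_eq_zero_iff] at h
        have := Nat.le_of_dvd (by omega) h
        omega)) (fun u _ => (u : ZMod p).val) ?_ ?_ ?_ ?_ ?_
    · intro a _; exact mem_univ _
    · intro u _
      rw [mem_Icc]
      have h2 := ZMod.val_lt (u : ZMod p)
      have h3 : (u : ZMod p).val ≠ 0 := by
        intro h
        rw [ZMod.val_eq_zero] at h
        exact u.ne_zero h
      omega
    · intro a ha
      rw [mem_Icc] at ha
      exact ZMod.val_cast_of_lt (by omega)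
    · intro u _
      apply Units.ext
      exact ZMod.natCast_zmod_val _
    · intro a ha
      rw [MulChar.one_apply_coe, mul_one]
      unfold fB gen
      have h4 : ((B * (a : ℤ) ^ r : ℤ) : ZMod p) = ((b * (Units.mk0 (a : ZMod p) (by
        rw [mem_Icc] at ha
        intro h
        rw [ZMod.natCast_eq_zero_iff] at h
        have := Nat.le_of_dvd (by omega) h
        omega)) ^ r : (ZMod p)ˣ) : ZMod p) := by
        push_cast
        rw [hb]
        simp
      rw [h4, orderOf_units]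
      split_ifs <;> simp
  rw [h1]
  push_cast
  rw [Nat.cast_sub hp.one_le, div_eq_mul_inv, mul_comm]
  push_cast
  rfl

end

theorem expandR (p : ℕ) [Fact p.Prime] (B : ℤ) (r : ℕ) (hr : r ≠ 0) :
    ∃ β : DirichletCharacter ℂ p → ℂ,
      (∀ m : ℕ, (open Classical in
        if orderOf (((B * (m : ℤ) ^ r : ℤ)) : ZMod p) = p - 1 then (1 : ℂ) else 0) =
        (if p ∣ m then 0 else ((G B r p : ℝ) : ℂ)) +
        ∑ χ ∈ NT p, β χ * χ (m : ZMod p)) ∧
      (∑ χ, ‖β χ‖ ≤ ((p - 1).divisors.card : ℝ)) ∧ ∀ χ, ‖β χ‖ ≤ 1 := by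
  classical
  have hN := N_pos (p := p)
  have horder0 : orderOf (0 : ZMod p) = 0 := orderOf_zero _
  by_cases hB : (p : ℤ) ∣ B
  · refine ⟨fun _ => 0, ?_, ?_, ?_⟩
    · intro m
      have h0 : ((B * (m : ℤ) ^ r : ℤ) : ZMod p) = 0 := by
        rw [ZMod.intCast_zmod_eq_zero_iff_dvd]
        exact hB.mul_right _
      rw [h0, horder0, if_neg hN.ne, G_zero_of_dvd B r hB]
      simp
    · simp
    · simp
  · have hu : IsUnit (B : ZMod p) := by
      rw [isUnit_iff_ne_zero, Ne, ZMod.intCast_zmod_eq_zero_iff_dvd]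
      exact hB
    obtain ⟨b, hb⟩ := hu
    refine ⟨fun χ => fc (fB b r) χ, ?_, fc_fB_sum b r hr, fun χ => norm_fc_le _ (fun u => by
      unfold fB gen
      split_ifs <;> simp) χ⟩
    intro m
    by_cases hm : p ∣ m
    · have hm0 : (m : ZMod p) = 0 := (ZMod.natCast_eq_zero_iff m p).2 hm
      have h0 : ((B * (m : ℤ) ^ r : ℤ) : ZMod p) = 0 := by
        push_cast
        rw [hm0, zero_pow hr, mul_zero]
      rw [h0, horder0, if_neg hN.ne, if_pos hm, zero_add]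
      symm
      refine sum_eq_zero fun χ _ => ?_
      rw [hm0, MulChar.map_zero, mul_zero]
    · have hm0 : IsUnit (m : ZMod p) := by
        rw [isUnit_iff_ne_zero, Ne, ZMod.natCast_eq_zero_iff]
        exact hm
      obtain ⟨w, hw⟩ := hm0
      have hinv := fc_inv (p := p) (fB b r) w
      rw [← add_sum_erase univ _ (mem_univ (1 : DirichletCharacter ℂ p)), G_eq B r b hb,
        MulChar.one_apply_coe, mul_one] at hinv
      rw [if_neg hm]
      have h1 : (NT p) = univ.erase (1 : DirichletCharacter ℂ p) := by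
        unfold NT
        ext χ
        simp
      rw [h1, ← hw, hinv]
      unfold fB gen
      have h2 : ((B * (m : ℤ) ^ r : ℤ) : ZMod p) = ((b * w ^ r : (ZMod p)ˣ) : ZMod p) := by
        push_cast
        rw [hb, hw]
      rw [h2, orderOf_units]

end Pool.Agent.N430.PS
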