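import Pool.Agent.H730R2.AA.LSr

set_option autoImplicit false

/-! The large sieve for `2r`-th powers of character sums over a set `E`, with a bound that is
superadditive in `E`. -/

namespace Pool.Agent.N430.PS

open Finset
open Pool.Agent.H730R2.AA (NT NT_prim)
open Pool.Agent.H730R2.AA.Tau

/-- the weight of a set -/
noncomputable def wt (r : ℕ) (E : Finset ℕ) : ℝ := ∑ m ∈ E, tau r m

lemma wt_nonneg (r : ℕ) (E : Finset ℕ) : 0 ≤ wt r E := Finset.sum_nonneg fun m _ => tau_nonneg r m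

lemma wt_total (r M : ℕ) (hr : 1 ≤ r) (hM : 1 ≤ M) :
    wt r (Icc 1 M) ≤ M * (1 + Real.log M) ^ (r - 1) := by
  obtain ⟨s, rfl⟩ : ∃ s, r = s + 1 := ⟨r - 1, by omega⟩
  exact tau_sum s M hM

theorem momentE (r M : ℕ) (hr : 1 ≤ r) (E : Finset ℕ) (hE : E ⊆ Icc 1 M) :
    ∃ A : ℕ → ℝ,
      (∀ (q : ℕ) (χ : DirichletCharacter ℂ q), (∑ m ∈ E, χ (m : ZMod q)) ^ r =
        ∑ n ∈ Icc 1 (M ^ r), (A n : ℂ) * χ (n : ZMod q)) ∧
      ∑ n ∈ Icc 1 (M ^ r), A n ^ 2 ≤ (wt r E) ^ r := by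
  classical
  have h0 : 0 ∉ E := fun h => by
    have := mem_Icc.1 (hE h)
    omega
  set e := ind E h0 with he_def
  have he : ∀ n, e n ≠ 0 → n ∈ Icc 1 M := by
    intro n hn
    apply hE
    by_contra h
    apply hn
    rw [he_def, ind_apply, if_neg h]
  have he0 : ∀ n, 0 ≤ e n := by
    intro n
    rw [he_def, ind_apply]
    split_ifs <;> norm_num
  have he1 : ∀ n, e n ≤ 1 := by
    intro n
    rw [he_def, ind_apply]
    split_ifs <;> norm_num
  refine ⟨fun n => (e ^ r) n, ?_, ?_⟩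
  · intro q χ
    have h := pow_identity M e he (fun n => χ (n : ZMod q)) (by simp) (by
      intro a b
      push_cast
      rw [map_mul]) r
    rw [← h]
    congr 1
    rw [← sum_subset hE]
    · apply sum_congr rfl
      intro m hm
      rw [he_def, ind_apply, if_pos hm]
      simp
    · intro m _ hm
      rw [he_def, ind_apply, if_neg hm]
      simp
  · obtain ⟨s, rfl⟩ : ∃ s, r = s + 1 := ⟨r - 1, by omega⟩
    calc ∑ n ∈ Icc 1 (M ^ (s + 1)), ((e ^ (s + 1)) n) ^ 2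
        ≤ ∑ n ∈ Icc 1 (M ^ (s + 1)), (e ^ (s + 1)) n * tau (s + 1) n := by
          apply sum_le_sum
          intro n _
          rw [sq]
          exact mul_le_mul_of_nonneg_left (pow_le_tau e he0 he1 _ _) (pow_nonneg' e he0 _ _)
      _ ≤ (∑ m ∈ Icc 1 M, e m * tau (s + 1) m) ^ (s + 1) := second M e he he0 _ _
      _ = (wt (s + 1) E) ^ (s + 1) := by
          congr 1
          unfold wt
          rw [← sum_subset hE]
          · apply sum_congr rfl
            intro m hm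
            rw [he_def, ind_apply, if_pos hm, one_mul]
          · intro m _ hm
            rw [he_def, ind_apply, if_neg hm, zero_mul]

theorem ls_primesE (r M x : ℕ) (hr : 1 ≤ r) (E : Finset ℕ) (hE : E ⊆ Icc 1 M) :
    ∑ p ∈ (Icc 1 x).filter Nat.Prime,
      ∑ χ ∈ NT p,
        ‖∑ m ∈ E, χ (m : ZMod p)‖ ^ (2 * r) ≤
      6 * ((M : ℝ) ^ r + (x : ℝ) ^ 2) * (wt r E) ^ r := by
  classical
  obtain ⟨A, hA, hA2⟩ := momentE r M hr E hE
  have h := Helper112.mult_large_sieve (M ^ r) x (fun n => (A n : ℂ))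
  have h2 : ∑ n ∈ Icc 1 (M ^ r), ‖((A n : ℝ) : ℂ)‖ ^ 2 = ∑ n ∈ Icc 1 (M ^ r), A n ^ 2 := by
    apply sum_congr rfl
    intro n _
    rw [Complex.norm_real, Real.norm_eq_abs, sq_abs]
  rw [h2] at h
  have h3 : 6 * (((M ^ r : ℕ) : ℝ) + (x : ℝ) ^ 2) * ∑ n ∈ Icc 1 (M ^ r), A n ^ 2 ≤
      6 * ((M : ℝ) ^ r + (x : ℝ) ^ 2) * (wt r E) ^ r := by
    push_cast
    exact mul_le_mul_of_nonneg_left hA2 (by positivity)
  refine le_trans (le_trans ?_ h) h3
  refine le_trans ?_ (sum_le_sum_of_subset_of_nonneg (filter_subset Nat.Prime (Icc 1 x)) ?_)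
  · apply sum_le_sum
    intro p hp
    rw [mem_filter] at hp
    have hp2 := hp.2
    have : NeZero p := ⟨hp2.ne_zero⟩
    have h4 : (1 : ℝ) ≤ (p : ℝ) / (Nat.totient p : ℝ) := by
      rw [one_le_div (by exact_mod_cast Nat.totient_pos.2 hp2.pos)]
      exact_mod_cast Nat.totient_le p
    calc ∑ χ ∈ NT p, ‖∑ m ∈ E, χ (m : ZMod p)‖ ^ (2 * r)
        ≤ ∑ χ ∈ (univ : Finset (DirichletCharacter ℂ p)).filter (fun χ => χ.IsPrimitive),
          ‖∑ m ∈ E, χ (m : ZMod p)‖ ^ (2 * r) := by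
          apply sum_le_sum_of_subset_of_nonneg
          · intro χ hχ
            rw [mem_filter]
            exact ⟨mem_univ _, NT_prim p hp2 χ hχ⟩
          · intro _ _ _
            positivity
      _ = ∑ χ ∈ (univ : Finset (DirichletCharacter ℂ p)).filter (fun χ => χ.IsPrimitive),
          ‖∑ n ∈ Icc 1 (M ^ r), (A n : ℂ) * χ (n : ZMod p)‖ ^ 2 := by
          apply sum_congr rfl
          intro χ _
          rw [← hA p χ, norm_pow, ← pow_mul, mul_comm]
      _ ≤ _ := by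
          apply le_mul_of_one_le_left _ h4
          exact sum_nonneg fun _ _ => by positivity
  · intro p _ _
    apply mul_nonneg (by positivity)
    exact sum_nonneg fun _ _ => by positivity

/-- the elementary inequality used in place of Hölder -/
lemma young {b a u : ℝ} (hb0 : 0 ≤ b) (hb : b ≤ 1) (ha : 0 ≤ a) (hu : 0 < u) (r : ℕ) (hr : 1 ≤ r) :
    b * a ≤ u * b + a ^ (2 * r) / u ^ (2 * r - 1) := by
  rcases le_total a u with h | h
  · have h1 : b * a ≤ b * u := mul_le_mul_of_nonneg_left h hb0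
    have h2 : 0 ≤ a ^ (2 * r) / u ^ (2 * r - 1) := by positivity
    linarith
  · have h1 : b * a ≤ 1 * a := mul_le_mul_of_nonneg_right hb ha
    have h2 : a ≤ a ^ (2 * r) / u ^ (2 * r - 1) := by
      rw [le_div_iff₀ (by positivity)]
      have h3 : a ^ (2 * r) = a * a ^ (2 * r - 1) := by
        rw [← pow_succ']
        congr 1
        omega
      rw [h3]
      apply mul_le_mul_of_nonneg_left _ ha
      exact pow_le_pow_left₀ hu.le h _
    have h3 : 0 ≤ u * b := by positivity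
    linarith

/-- sums of `r`-th powers -/
lemma sum_pow_le {ι : Type*} (s : Finset ι) (f : ι → ℝ) (hf : ∀ i ∈ s, 0 ≤ f i) (r : ℕ) (hr : 1 ≤ r) :
    ∑ i ∈ s, f i ^ r ≤ (∑ i ∈ s, f i) ^ r := by
  classical
  obtain ⟨t, rfl⟩ : ∃ t, r = t + 1 := ⟨r - 1, by omega⟩
  have h0 : 0 ≤ ∑ i ∈ s, f i := Finset.sum_nonneg hf
  calc ∑ i ∈ s, f i ^ (t + 1) = ∑ i ∈ s, f i * f i ^ t := by
        exact Finset.sum_congr rfl fun i _ => by rw [pow_succ, mul_comm]
    _ ≤ ∑ i ∈ s, f i * (∑ j ∈ s, f j) ^ t := by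
        apply Finset.sum_le_sum
        intro i hi
        apply mul_le_mul_of_nonneg_left _ (hf i hi)
        exact pow_le_pow_left₀ (hf i hi) (Finset.single_le_sum hf hi) t
    _ = _ := by rw [← Finset.sum_mul, ← pow_succ']

/-- **one level**: disjoint intervals of primes, disjoint sets of integers -/
theorem level {ι : Type*} (r M x : ℕ) (hr : 1 ≤ r) (hM : 1 ≤ M) (c : Finset ι)
    (F : ι → Finset ℕ) (hF : ∀ i ∈ c, F i ⊆ Icc 1 M)
    (hFd : ∀ m, #(c.filter (fun i => m ∈ F i)) ≤ 1)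
    (I : ι → Finset ℕ) (hI : ∀ i ∈ c, I i ⊆ (Icc 1 x).filter Nat.Prime)
    (hId : ∀ p, #(c.filter (fun i => p ∈ I i)) ≤ 2)
    (β : (p : ℕ) → DirichletCharacter ℂ p → ℝ) (hβ0 : ∀ p χ, 0 ≤ β p χ) (hβ1 : ∀ p χ, β p χ ≤ 1)
    (Bs : ℝ) (hβs : ∑ p ∈ (Icc 1 x).filter Nat.Prime, ∑ χ ∈ NT p, β p χ ≤ Bs) (u : ℝ) (hu : 0 < u) :
    ∑ i ∈ c, ∑ p ∈ I i, ∑ χ ∈ NT p, β p χ * ‖∑ m ∈ F i, χ (m : ZMod p)‖ ≤
      2 * u * Bs + 6 * ((M : ℝ) ^ r + (x : ℝ) ^ 2) * (M * (1 + Real.log M) ^ (r - 1)) ^ r /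
        u ^ (2 * r - 1) := by
  classical
  have h1 : ∀ i ∈ c, ∑ p ∈ I i, ∑ χ ∈ NT p, β p χ * ‖∑ m ∈ F i, χ (m : ZMod p)‖ ≤
      u * ∑ p ∈ I i, ∑ χ ∈ NT p, β p χ +
        6 * ((M : ℝ) ^ r + (x : ℝ) ^ 2) * (wt r (F i)) ^ r / u ^ (2 * r - 1) := by
    intro i hi
    have h2 : ∑ p ∈ I i, ∑ χ ∈ NT p, β p χ * ‖∑ m ∈ F i, χ (m : ZMod p)‖ ≤
        ∑ p ∈ I i, ∑ χ ∈ NT p, (u * β p χ +
          ‖∑ m ∈ F i, χ (m : ZMod p)‖ ^ (2 * r) / u ^ (2 * r - 1)) :=
      Finset.sum_le_sum fun p _ => Finset.sum_le_sum fun χ _ =>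
        young (hβ0 p χ) (hβ1 p χ) (norm_nonneg _) hu r hr
    refine h2.trans ?_
    simp only [Finset.sum_add_distrib, ← Finset.mul_sum, ← Finset.sum_div]
    apply add_le_add le_rfl
    apply div_le_div_of_nonneg_right _ (by positivity)
    refine le_trans ?_ (ls_primesE r M x hr (F i) (hF i hi))
    exact Finset.sum_le_sum_of_subset_of_nonneg (hI i hi) fun _ _ _ =>
      Finset.sum_nonneg fun _ _ => by positivity
  refine (Finset.sum_le_sum h1).trans ?_
  rw [Finset.sum_add_distrib, ← Finset.mul_sum]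
  apply add_le_add
  · -- the first part
    have h3 : ∑ i ∈ c, ∑ p ∈ I i, ∑ χ ∈ NT p, β p χ ≤ 2 * Bs := by
      have h4 : ∀ i ∈ c, ∑ p ∈ I i, ∑ χ ∈ NT p, β p χ =
          ∑ p ∈ (Icc 1 x).filter Nat.Prime, if p ∈ I i then ∑ χ ∈ NT p, β p χ else 0 := by
        intro i hi
        rw [← Finset.sum_filter]
        congr 1
        ext p
        rw [mem_filter]
        exact ⟨fun h => ⟨hI i hi h, h⟩, fun h => h.2⟩
      rw [Finset.sum_congr rfl h4, Finset.sum_comm]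
      have h5 : ∀ p ∈ (Icc 1 x).filter Nat.Prime,
          (∑ i ∈ c, if p ∈ I i then ∑ χ ∈ NT p, β p χ else 0) ≤ 2 * ∑ χ ∈ NT p, β p χ := by
        intro p _
        rw [← Finset.sum_filter, Finset.sum_const, nsmul_eq_mul]
        apply mul_le_mul_of_nonneg_right _ (Finset.sum_nonneg fun χ _ => hβ0 p χ)
        exact_mod_cast hId p
      refine (Finset.sum_le_sum h5).trans ?_
      rw [← Finset.mul_sum]
      linarith
    have := mul_le_mul_of_nonneg_left h3 hu.le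
    linarith
  · rw [← Finset.sum_div]
    apply div_le_div_of_nonneg_right _ (by positivity)
    rw [← Finset.mul_sum]
    apply mul_le_mul_of_nonneg_left _ (by positivity)
    refine (sum_pow_le c (fun i => wt r (F i)) (fun i _ => wt_nonneg r _) r hr).trans ?_
    apply pow_le_pow_left₀ (Finset.sum_nonneg fun i _ => wt_nonneg r _)
    refine le_trans ?_ (wt_total r M hr hM)
    unfold wt
    have h4 : ∀ i ∈ c, ∑ m ∈ F i, tau r m = ∑ m ∈ Icc 1 M, if m ∈ F i then tau r m else 0 := by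
      intro i hi
      rw [← Finset.sum_filter]
      congr 1
      ext m
      rw [mem_filter]
      exact ⟨fun h => ⟨hF i hi h, h⟩, fun h => h.2⟩
    rw [Finset.sum_congr rfl h4, Finset.sum_comm]
    apply Finset.sum_le_sum
    intro m _
    rw [← Finset.sum_filter, Finset.sum_const, nsmul_eq_mul]
    calc (#(c.filter (fun i => m ∈ F i)) : ℝ) * tau r m ≤ 1 * tau r m :=
          mul_le_mul_of_nonneg_right (by exact_mod_cast hFd m) (tau_nonneg r m)
      _ = tau r m := one_mul _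

end Pool.Agent.N430.PS
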