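import Pool.Agent.N430.PS.LSE
import Pool.Agent.N430.PS.ExpandR

set_option autoImplicit false

/-! The maximal inequality. -/

namespace Pool.Agent.N430.PS

open Finset
open Pool.Agent.H730R2.AA (NT)

/-- the primes below `n` -/
def PB (n : ℕ) : Finset ℕ := (range n).filter Nat.Prime

/-- the dyadic block of primes -/
def blk (j i : ℕ) : Finset ℕ := (Ico (2 ^ (j + 1) * (i / 2)) (2 ^ j * i)).filter Nat.Prime

lemma blk_index {j i p : ℕ} (h : p ∈ blk j i) : i = p / 2 ^ j + 1 := by
  unfold blk at h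
  rw [mem_filter, mem_Ico] at h
  obtain ⟨⟨h1, h2⟩, -⟩ := h
  have hpos : 0 < 2 ^ j := by positivity
  rcases Nat.even_or_odd' i with ⟨t, ht | ht⟩
  · exfalso
    rw [ht, Nat.mul_div_cancel_left _ (by norm_num), pow_succ] at h1
    rw [ht] at h2
    have : 2 ^ j * 2 * t = 2 ^ j * (2 * t) := by ring
    omega
  · have h3 : i / 2 = t := by omega
    rw [h3, pow_succ] at h1
    have h4 : p / 2 ^ j = 2 * t := by
      apply Nat.div_eq_of_lt_le
      · calc 2 * t * 2 ^ j = 2 ^ j * 2 * t := by ring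
          _ ≤ p := h1
      · calc p < 2 ^ j * i := h2
          _ = (2 * t + 1) * 2 ^ j := by rw [ht]; ring
    omega

lemma telescope (a : ℕ → ℝ) (n J : ℕ) (hn : n < 2 ^ J) :
    ∑ p ∈ PB n, a p = ∑ j ∈ range J, ∑ p ∈ blk j (n / 2 ^ j), a p := by
  set S : ℕ → ℝ := fun t => ∑ p ∈ PB t, a p with hS
  set t : ℕ → ℕ := fun j => n / 2 ^ j * 2 ^ j with ht
  have h0 : S (t 0) = ∑ p ∈ PB n, a p := by simp [hS, ht]
  have hJ : S (t J) = 0 := by
    simp only [hS, ht]
    rw [Nat.div_eq_of_lt hn, zero_mul]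
    simp [PB]
  have hstep : ∀ j, S (t j) - S (t (j + 1)) = ∑ p ∈ blk j (n / 2 ^ j), a p := by
    intro j
    have hle : t (j + 1) ≤ t j := by
      simp only [ht]
      have h1 : n / 2 ^ (j + 1) = n / 2 ^ j / 2 := by
        rw [pow_succ, Nat.div_div_eq_div_mul]
      rw [h1, pow_succ]
      have h2 := Nat.div_mul_le_self (n / 2 ^ j) 2
      calc n / 2 ^ j / 2 * (2 ^ j * 2) = n / 2 ^ j / 2 * 2 * 2 ^ j := by ring
        _ ≤ n / 2 ^ j * 2 ^ j := Nat.mul_le_mul_right _ h2
    have hb : blk j (n / 2 ^ j) = (Ico (t (j + 1)) (t j)).filter Nat.Prime := by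
      unfold blk
      have h1 : n / 2 ^ (j + 1) = n / 2 ^ j / 2 := by
        rw [pow_succ, Nat.div_div_eq_div_mul]
      simp only [ht]
      rw [h1, mul_comm (2 ^ (j + 1)), mul_comm (2 ^ j) (n / 2 ^ j)]
    rw [hb]
    simp only [hS, PB]
    have hsplit : (range (t j)).filter Nat.Prime = (range (t (j + 1))).filter Nat.Prime ∪
        (Ico (t (j + 1)) (t j)).filter Nat.Prime := by
      rw [← Finset.filter_union, Finset.range_eq_Ico, Finset.range_eq_Ico,
        Finset.Ico_union_Ico_eq_Ico (Nat.zero_le _) hle]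
    rw [hsplit, Finset.sum_union]
    · ring
    · apply Finset.disjoint_filter_filter
      rw [Finset.range_eq_Ico]
      exact Finset.Ico_disjoint_Ico_consecutive _ _ _
  have htel := Finset.sum_range_sub' (fun j => S (t j)) J
  rw [hJ, h0, sub_zero] at htel
  rw [← htel]
  exact Finset.sum_congr rfl fun j _ => hstep j

/-- the indicator function -/
noncomputable def fR (B : ℤ) (e p m : ℕ) : ℝ := by
  classical
  exact if orderOf ((B * (m : ℤ) ^ e : ℤ) : ZMod p) = p - 1 then 1 else 0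

/-- the centred indicator function -/
noncomputable def aR (B : ℤ) (e p m : ℕ) : ℝ := fR B e p m - (if p ∣ m then 0 else G B e p)

theorem exists_beta (B : ℤ) (e : ℕ) (he : e ≠ 0) :
    ∃ β : (p : ℕ) → DirichletCharacter ℂ p → ℂ,
      (∀ p, p.Prime → ∀ m : ℕ, ((aR B e p m : ℝ) : ℂ) = ∑ χ ∈ NT p, β p χ * χ (m : ZMod p)) ∧
      (∀ p, p.Prime → ∑ χ ∈ NT p, ‖β p χ‖ ≤ ((p - 1).divisors.card : ℝ)) ∧
      ∀ p χ, ‖β p χ‖ ≤ 1 := by
  classical
  have h : ∀ p : ℕ, ∃ b : DirichletCharacter ℂ p → ℂ,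
      (p.Prime → ∀ m : ℕ, ((aR B e p m : ℝ) : ℂ) = ∑ χ ∈ NT p, b χ * χ (m : ZMod p)) ∧
      (p.Prime → ∑ χ ∈ NT p, ‖b χ‖ ≤ ((p - 1).divisors.card : ℝ)) ∧
      ∀ χ, ‖b χ‖ ≤ 1 := by
    intro p
    by_cases hp : p.Prime
    · have : Fact p.Prime := ⟨hp⟩
      obtain ⟨b, h1, h2, h3⟩ := expandR p B e he
      refine ⟨b, fun _ m => ?_, fun _ => ?_, h3⟩
      · have h4 := h1 m
        unfold aR fR
        have h5 : (((if orderOf ((B * (m : ℤ) ^ e : ℤ) : ZMod p) = p - 1 then (1 : ℝ) else 0 : ℝ)) : ℂ) =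
            if orderOf (((B * (m : ℤ) ^ e : ℤ)) : ZMod p) = p - 1 then (1 : ℂ) else 0 := by
          split_ifs <;> simp
        rw [Complex.ofReal_sub, h5, h4]
        split_ifs <;> simp
      · refine le_trans ?_ h2
        exact Finset.sum_le_sum_of_subset_of_nonneg (Finset.subset_univ _) fun _ _ _ => norm_nonneg _
    · exact ⟨fun _ => 0, fun h => absurd h hp, fun h => absurd h hp, fun _ => by simp⟩
  choose β h1 h2 h3 using h
  exact ⟨β, h1, h2, h3⟩

/-- **the maximal inequality** -/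
theorem maximal (B : ℤ) (e : ℕ) (he : e ≠ 0) (k N J : ℕ) (hk : 1 ≤ k) (hN : 1 ≤ N) (E : Finset ℕ)
    (hE : E ⊆ Icc 1 N) (n : ℕ → ℕ) (hn : ∀ m ∈ E, n m < 2 ^ J) (u : ℝ) (hu : 0 < u) :
    ∑ m ∈ E, |∑ p ∈ PB (n m), aR B e p m| ≤
      J * (2 * u * (((2 : ℝ) ^ J) * (1 + Real.log ((2 : ℝ) ^ J))) +
        6 * ((N : ℝ) ^ k + ((2 : ℝ) ^ J) ^ 2) * (N * (1 + Real.log N) ^ (k - 1)) ^ k /
        u ^ (2 * k - 1)) := by
  classical
  obtain ⟨β, hβ1, hβ2, hβ3⟩ := exists_beta B e he
  set X : ℕ := 2 ^ J with hX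
  have hX1 : 1 ≤ X := Nat.one_le_two_pow
  have hXr : ((X : ℕ) : ℝ) = (2 : ℝ) ^ J := by rw [hX]; push_cast; rfl
  -- the sum of the coefficients
  set br : (p : ℕ) → DirichletCharacter ℂ p → ℝ := fun p χ => ‖β p χ‖ with hbr
  have hBs : ∑ p ∈ (Icc 1 X).filter Nat.Prime, ∑ χ ∈ NT p, br p χ ≤
      (X : ℝ) * (1 + Real.log X) := by
    have h1 : ∑ p ∈ (Icc 1 X).filter Nat.Prime, ∑ χ ∈ NT p, br p χ ≤
        ∑ p ∈ (Icc 1 X).filter Nat.Prime, ((p - 1).divisors.card : ℝ) :=
      Finset.sum_le_sum fun p hp => hβ2 p (mem_filter.1 hp).2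
    refine h1.trans (le_trans ?_ (Pool.Agent.H730R2.AA.sum_divisors_card X hX1))
    have h2 : ∑ p ∈ (Icc 1 X).filter Nat.Prime, ((p - 1).divisors.card : ℝ) =
        ∑ q ∈ ((Icc 1 X).filter Nat.Prime).image (fun p => p - 1), (q.divisors.card : ℝ) := by
      rw [Finset.sum_image]
      intro a ha b hb hab
      have h3 := (mem_filter.1 ha).2.one_lt
      have h4 := (mem_filter.1 hb).2.one_lt
      simp only at hab
      omega
    rw [h2]
    apply Finset.sum_le_sum_of_subset_of_nonneg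
    · intro q hq
      rw [mem_image] at hq
      obtain ⟨p, hp, rfl⟩ := hq
      rw [mem_filter, mem_Icc] at hp
      have := hp.2.one_lt
      rw [mem_Icc]
      omega
    · intro _ _ _
      positivity
  -- telescoping
  have htel : ∀ m ∈ E, |∑ p ∈ PB (n m), aR B e p m| ≤
      ∑ j ∈ range J, |∑ p ∈ blk j (n m / 2 ^ j), aR B e p m| := by
    intro m hm
    rw [telescope (fun p => aR B e p m) (n m) J (hn m hm)]
    exact Finset.abs_sum_le_sum_abs _ _
  refine (Finset.sum_le_sum htel).trans ?_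
  rw [Finset.sum_comm]
  have hlev : ∀ j ∈ range J, ∑ m ∈ E, |∑ p ∈ blk j (n m / 2 ^ j), aR B e p m| ≤
      2 * u * ((X : ℝ) * (1 + Real.log X)) +
        6 * ((N : ℝ) ^ k + (X : ℝ) ^ 2) * (N * (1 + Real.log N) ^ (k - 1)) ^ k /
        u ^ (2 * k - 1) := by
    intro j _
    -- cells
    set c : Finset (ℕ × Bool) := ((range (X + 1)).filter (fun i => 2 ^ j * i ≤ X)) ×ˢ univ with hc
    set T : ℕ → ℕ → ℝ := fun i m => ∑ p ∈ blk j i, aR B e p m with hT
    set F : ℕ × Bool → Finset ℕ := fun i => E.filter (fun m => n m / 2 ^ j = i.1 ∧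
      (if i.2 then 0 ≤ T i.1 m else T i.1 m < 0)) with hF
    have hcell : ∀ m ∈ E, (n m / 2 ^ j) ∈ (range (X + 1)).filter (fun i => 2 ^ j * i ≤ X) := by
      intro m hm
      have h1 := hn m hm
      rw [mem_filter, mem_range]
      have h2 : n m / 2 ^ j ≤ n m := Nat.div_le_self _ _
      have h3 : 2 ^ j * (n m / 2 ^ j) ≤ n m := Nat.mul_div_le _ _
      constructor <;> omega
    have hpart : ∑ m ∈ E, |T (n m / 2 ^ j) m| = ∑ i ∈ c, ∑ m ∈ F i, |T i.1 m| := by
      have h1 : ∀ i ∈ c, ∑ m ∈ F i, |T i.1 m| =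
          ∑ m ∈ E, if (n m / 2 ^ j = i.1 ∧ (if i.2 then 0 ≤ T i.1 m else T i.1 m < 0)) then
            |T (n m / 2 ^ j) m| else 0 := by
        intro i _
        rw [← Finset.sum_filter]
        refine Finset.sum_congr rfl fun m hm => ?_
        rw [(mem_filter.1 hm).2.1]
      rw [Finset.sum_congr rfl h1, Finset.sum_comm]
      refine Finset.sum_congr rfl fun m hm => ?_
      set i0 := n m / 2 ^ j with hi0
      set s0 : Bool := decide (0 ≤ T i0 m) with hs0
      rw [Finset.sum_eq_single_of_mem (i0, s0)]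
      · rw [if_pos]
        refine ⟨rfl, ?_⟩
        by_cases h : 0 ≤ T i0 m
        · simp [hs0, h]
        · simp only [hs0, h, decide_false, Bool.false_eq_true, if_false]
          exact not_le.1 h
      · rw [hc, mem_product]
        exact ⟨hcell m hm, mem_univ _⟩
      · rintro ⟨i, s⟩ _ hne
        rw [if_neg]
        rintro ⟨h2, h3⟩
        apply hne
        simp only at h2
        subst h2
        congr 1
        by_cases hs : s = true
        · rw [if_pos hs] at h3
          rw [hs, hs0]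
          simp [h3]
        · rw [if_neg hs] at h3
          have : ¬ 0 ≤ T i0 m := not_le.2 h3
          rw [hs0]
          simp only [this, decide_false]
          exact Bool.eq_false_iff.2 hs
    change ∑ m ∈ E, |T (n m / 2 ^ j) m| ≤ _
    rw [hpart]
    -- each cell
    have hone : ∀ i ∈ c, ∑ m ∈ F i, |T i.1 m| ≤
        ∑ p ∈ blk j i.1, ∑ χ ∈ NT p, br p χ * ‖∑ m ∈ F i, χ (m : ZMod p)‖ := by
      intro i _
      have h1 : ∑ m ∈ F i, |T i.1 m| = |∑ m ∈ F i, T i.1 m| := by
        by_cases hs : i.2 = true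
        · have h2 : ∀ m ∈ F i, 0 ≤ T i.1 m := by
            intro m hm
            rw [hF, mem_filter, if_pos hs] at hm
            exact hm.2.2
          rw [abs_of_nonneg (Finset.sum_nonneg h2)]
          exact Finset.sum_congr rfl fun m hm => abs_of_nonneg (h2 m hm)
        · have h2 : ∀ m ∈ F i, T i.1 m < 0 := by
            intro m hm
            rw [hF, mem_filter, if_neg hs] at hm
            exact hm.2.2
          rw [abs_of_nonpos (Finset.sum_nonpos fun m hm => (h2 m hm).le), ← Finset.sum_neg_distrib]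
          exact Finset.sum_congr rfl fun m hm => abs_of_neg (h2 m hm)
      rw [h1]
      have h3 : ((∑ m ∈ F i, T i.1 m : ℝ) : ℂ) =
          ∑ p ∈ blk j i.1, ∑ χ ∈ NT p, β p χ * ∑ m ∈ F i, χ (m : ZMod p) := by
        rw [Complex.ofReal_sum]
        have h4 : ∀ m ∈ F i, ((T i.1 m : ℝ) : ℂ) =
            ∑ p ∈ blk j i.1, ∑ χ ∈ NT p, β p χ * χ (m : ZMod p) := by
          intro m _
          rw [hT]
          simp only
          rw [Complex.ofReal_sum]
          refine Finset.sum_congr rfl fun p hp => ?_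
          unfold blk at hp
          exact hβ1 p (mem_filter.1 hp).2 m
        rw [Finset.sum_congr rfl h4, Finset.sum_comm]
        refine Finset.sum_congr rfl fun p _ => ?_
        rw [Finset.sum_comm]
        refine Finset.sum_congr rfl fun χ _ => ?_
        rw [Finset.mul_sum]
      have h5 : |∑ m ∈ F i, T i.1 m| = ‖((∑ m ∈ F i, T i.1 m : ℝ) : ℂ)‖ := by
        rw [Complex.norm_real, Real.norm_eq_abs]
      rw [h5, h3]
      refine (norm_sum_le _ _).trans (Finset.sum_le_sum fun p _ => ?_)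
      refine (norm_sum_le _ _).trans (Finset.sum_le_sum fun χ _ => ?_)
      rw [norm_mul]
    refine (Finset.sum_le_sum hone).trans ?_
    apply level k N X hk hN c F _ _ (fun i => blk j i.1) _ _ br (fun p χ => norm_nonneg _)
      (fun p χ => hβ3 p χ) _ hBs u hu
    · intro i _
      exact (Finset.filter_subset _ _).trans hE
    · intro m
      rw [Finset.card_le_one]
      intro a ha b hb
      rw [mem_filter] at ha hb
      have h1 := (mem_filter.1 ha.2).2
      have h2 := (mem_filter.1 hb.2).2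
      have h3 : a.1 = b.1 := h1.1.symm.trans h2.1
      apply Prod.ext h3
      have h4 := h1.2
      have h5 := h2.2
      rw [h3] at h4
      by_cases ha2 : a.2 = true
      · by_cases hb2 : b.2 = true
        · rw [ha2, hb2]
        · rw [if_pos ha2] at h4
          rw [if_neg hb2] at h5
          linarith
      · by_cases hb2 : b.2 = true
        · rw [if_neg ha2] at h4
          rw [if_pos hb2] at h5
          linarith
        · rw [Bool.eq_false_iff.2 ha2, Bool.eq_false_iff.2 hb2]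
    · intro i hi p hp
      rw [hc, mem_product, mem_filter] at hi
      unfold blk at hp
      rw [mem_filter, mem_Ico] at hp
      rw [mem_filter, mem_Icc]
      exact ⟨⟨hp.2.one_le, by omega⟩, hp.2⟩
    · intro p
      have hsub : c.filter (fun i => p ∈ blk j i.1) ⊆ {(p / 2 ^ j + 1, true), (p / 2 ^ j + 1, false)} := by
        intro i hi
        rw [mem_filter] at hi
        have h1 := blk_index hi.2
        rw [mem_insert, mem_singleton]
        rcases i with ⟨i, s⟩
        simp only at h1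
        subst h1
        cases s <;> simp
      refine (card_le_card hsub).trans ?_
      exact (card_insert_le _ _).trans (by simp)
  refine (Finset.sum_le_sum hlev).trans ?_
  rw [Finset.sum_const, card_range, nsmul_eq_mul, hXr]

end Pool.Agent.N430.PS
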