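import Pool.Agent.N430.PS.Max

set_option autoImplicit false

/-! The choice of the parameter in the maximal inequality. -/

namespace Pool.Agent.N430.PS

open Finset

lemma G_nonneg (B : ℤ) (e p : ℕ) (hp : 1 ≤ p) : 0 ≤ G B e p := by
  unfold G
  have : (1 : ℝ) ≤ p := by exact_mod_cast hp
  apply div_nonneg (Nat.cast_nonneg _)
  linarith

lemma G_le_one (B : ℤ) (e p : ℕ) (hp : p.Prime) : G B e p ≤ 1 := by
  classical
  unfold G
  have : (1 : ℝ) < p := by exact_mod_cast hp.one_lt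
  rw [div_le_one (by linarith)]
  have h : (((Finset.Icc 1 (p - 1)).filter
    (fun a : ℕ => orderOf ((B * (a : ℤ) ^ e : ℤ) : ZMod p) = p - 1)).card) ≤ p - 1 := by
    refine (card_filter_le _ _).trans ?_
    simp
  have h2 : ((p - 1 : ℕ) : ℝ) = (p : ℝ) - 1 := by
    rw [Nat.cast_sub hp.one_le]; simp
  rw [← h2]
  exact_mod_cast h

/-- the maximal inequality with the optimal choice of `u`; `y = X ^ (1 / (2 k))`, `l = √(1 + log N)` -/
theorem maximal_opt (B : ℤ) (e : ℕ) (he : e ≠ 0) (s N J : ℕ) (hN : 1 ≤ N) (E : Finset ℕ)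
    (hE : E ⊆ Icc 1 N) (n : ℕ → ℕ) (hn : ∀ m ∈ E, n m < 2 ^ J)
    (hX : ((2 : ℝ) ^ J) ^ 2 ≤ 16 * (N : ℝ) ^ (s + 1)) (y : ℝ) (hy : 0 < y) (hyX : y ^ (2 * (s + 1)) = 2 ^ J) :
    ∑ m ∈ E, |∑ p ∈ PB (n m), aR B e p m| ≤
      J * (104 * (N * y ^ (2 * s + 1) * (√(1 + Real.log N)) ^ s * (1 + Real.log ((2 : ℝ) ^ J)))) := by
  have hNr : (1 : ℝ) ≤ N := by exact_mod_cast hN
  have hlogN : 0 ≤ Real.log N := Real.log_nonneg hNr
  set l := √(1 + Real.log N) with hl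
  have hl1 : 1 ≤ l := by
    rw [hl, Real.one_le_sqrt]
    linarith
  have hl2 : l ^ 2 = 1 + Real.log N := Real.sq_sqrt (by linarith)
  have hlogX : 0 ≤ Real.log ((2 : ℝ) ^ J) := Real.log_nonneg (one_le_pow₀ (by norm_num))
  have h := maximal B e he (s + 1) N J (by omega) hN E hE n hn (N * l ^ s / y) (by positivity)
  refine h.trans ?_
  apply mul_le_mul_of_nonneg_left _ (Nat.cast_nonneg _)
  have e1 : s + 1 - 1 = s := by omega
  have e2 : 2 * (s + 1) - 1 = 2 * s + 1 := by omega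
  rw [e1, e2, ← hl2, ← hyX]
  have h1 : 2 * (↑N * l ^ s / y) * (y ^ (2 * (s + 1)) * (1 + Real.log (y ^ (2 * (s + 1))))) =
      2 * (N * y ^ (2 * s + 1) * l ^ s * (1 + Real.log (y ^ (2 * (s + 1))))) := by
    have : y ^ (2 * (s + 1)) = y * y ^ (2 * s + 1) := by ring
    rw [this]
    field_simp
  rw [h1]
  have h2 : 6 * ((N : ℝ) ^ (s + 1) + (y ^ (2 * (s + 1))) ^ 2) * (↑N * (l ^ 2) ^ s) ^ (s + 1) /
      (↑N * l ^ s / y) ^ (2 * s + 1) ≤ 102 * (N * y ^ (2 * s + 1) * l ^ s) := by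
    rw [div_le_iff₀ (by positivity), hyX]
    have h3 : 6 * ((N : ℝ) ^ (s + 1) + ((2 : ℝ) ^ J) ^ 2) ≤ 102 * (N : ℝ) ^ (s + 1) := by linarith
    calc 6 * ((N : ℝ) ^ (s + 1) + ((2 : ℝ) ^ J) ^ 2) * (↑N * (l ^ 2) ^ s) ^ (s + 1)
        ≤ (102 * (N : ℝ) ^ (s + 1)) * (↑N * (l ^ 2) ^ s) ^ (s + 1) :=
          mul_le_mul_of_nonneg_right h3 (by positivity)
      _ = 102 * (N * y ^ (2 * s + 1) * l ^ s) * (↑N * l ^ s / y) ^ (2 * s + 1) := by
          rw [div_pow, mul_pow, mul_pow, ← pow_mul, ← pow_mul, ← pow_mul]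
          field_simp
          ring
  have h4 : 0 ≤ (N : ℝ) * y ^ (2 * s + 1) * l ^ s := by positivity
  have h5 : 102 * (N * y ^ (2 * s + 1) * l ^ s) ≤
      102 * (N * y ^ (2 * s + 1) * l ^ s * (1 + Real.log (y ^ (2 * (s + 1))))) := by
    rw [hyX]
    nlinarith
  rw [hyX] at h1 h2 h5 ⊢
  linarith

end Pool.Agent.N430.PS
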